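import Mathlib

set_option autoImplicit false

/-!
# A closed family of five-element sets (project LF, problem MP_62b59a)

Vertices: `VA N` (four classes `a.1`, labels `a.2` in `(ZMod 2 × ZMod 2) × ZMod N`) and `VB N`
(classes `b.1 : Fin 4 → ZMod 2`, labels `b.2`).  A set of vertices is a pair `X Y` of a set of
`VA`-vertices and a set of `VB`-vertices.
-/

open Finset

namespace Pool.Agent.Helper34.LF

/-- the vertices of the first kind -/
abbrev VA (N : ℕ) : Type := Fin 4 × ((ZMod 2 × ZMod 2) × ZMod N)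

/-- the vertices of the second kind -/
abbrev VB (N : ℕ) : Type := (Fin 4 → ZMod 2) × ZMod N

/-- the sum of the three coordinates of `w` other than the `k`-th -/
def off (k : Fin 4) (w : Fin 4 → ZMod 2) : ZMod 2 := w (k + 1) + w (k + 2) + w (k + 3)

/-- two of the three coordinates of `w` other than the `k`-th -/
def pr (k : Fin 4) (w : Fin 4 → ZMod 2) : ZMod 2 × ZMod 2 := (w (k + 1), w (k + 2))

variable {N : ℕ}

/-- the parity of a pair of sets -/
def par (X : Finset (VA N)) (Y : Finset (VB N)) : ZMod 2 := ∑ a ∈ X, ∑ b ∈ Y, b.1 a.1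

/-- special quadruples with two vertices of each kind -/
def Sp (a a' : VA N) (b b' : VB N) : Prop :=
  a.1 = a'.1 ∧ off a.1 (b.1 + b'.1) = 0 ∧ a.2 + a'.2 = (pr a.1 (b.1 + b'.1), -(b.2 + b'.2))

/-- blocks of the first kind: four vertices, in four different classes or all in the same class,
the sum of whose labels is zero -/
def Blk (X : Finset (VA N)) : Prop :=
  X.card = 4 ∧ ((X.image Prod.fst).card = 4 ∨ (X.image Prod.fst).card = 1) ∧ ∑ a ∈ X, a.2 = 0

/-- blocks of the second kind: four vertices with sum zero -/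
def BlkB (Y : Finset (VB N)) : Prop := Y.card = 4 ∧ ∑ b ∈ Y, b = 0

/-- good four-element sets -/
def Gd (X : Finset (VA N)) (Y : Finset (VB N)) : Prop :=
  (X.card = 3 ∧ Y.card = 1) ∨ (X.card = 1 ∧ Y.card = 3) ∨ (X.card = 2 ∧ Y.card = 2 ∧ par X Y = 1)

/-- special four-element sets -/
def Sc (X : Finset (VA N)) (Y : Finset (VB N)) : Prop :=
  (Blk X ∧ Y = ∅) ∨ (X = ∅ ∧ BlkB Y) ∨
    ∃ a a' b b', a ≠ a' ∧ b ≠ b' ∧ X = {a, a'} ∧ Y = {b, b'} ∧ Sp a a' b b'

/-- the five-element sets -/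
def KP (X : Finset (VA N)) (Y : Finset (VB N)) : Prop :=
  (Blk X ∧ Y.card = 1) ∨ (X.card = 1 ∧ BlkB Y) ∨
    ∃ a a' c b b', a ≠ a' ∧ a ≠ c ∧ a' ≠ c ∧ b ≠ b' ∧ X = {a, a', c} ∧ Y = {b, b'} ∧
      Sp a a' b b' ∧ (b.1 + b'.1) a.1 ≠ (b.1 + b'.1) c.1

end Pool.Agent.Helper34.LF
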