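import Mathlib
import Pool.Agent.Helper34.LF.Defs

set_option autoImplicit false

/-!
# Statements of the modules of project LF (problem MP_62b59a)

Each module `XX` is a file `Pool/Agent/<You>/LF/M_XX.lean` (imports `Mathlib` and this file) with
`theorem pXX : StXX`.  The modules are independent of each other.  Notation in the proofs:
`w = b.1 + b'.1`; everything in `ZMod 2` has `x + x = 0`, and `x ≠ y ↔ x + y = 1` there (`decide`).
-/

open Finset

namespace Pool.Agent.Helper34.LF

/-- **Module ER1.** All erasures of a five-element set are good or special.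
Proof. Unfold `KP`, three cases.
(1) `Blk X`, `Y.card = 1`: erasing `a ∈ X` gives cards `(3,1)`, first case of `Gd`; erasing `b`
gives `Y.erase b = ∅` (card 0), first case of `Sc`.
(2) `X.card = 1`, `BlkB Y`: erasing `a` gives `∅`, second case of `Sc`; erasing `b ∈ Y` gives cards
`(1,3)`, second case of `Gd`.
(3) `X = {a,a',c}`, `Y = {b,b'}`: erasing an element of `Y` gives cards `(3,1)`. Erasing `a`:
`X.erase a = {a',c}`, cards `(2,2)` and `par {a',c} {b,b'} = w a'.1 + w c.1` (`sum_pair`), which is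
`1` as `a'.1 = a.1` and `w a.1 ≠ w c.1`. The same for `a'`. Erasing `c` gives `{a,a'}`, third case
of `Sc`. -/
def StER1 : Prop := ∀ (N : ℕ) [NeZero N] (X : Finset (VA N)) (Y : Finset (VB N)), KP X Y →
  (∀ a ∈ X, Gd (X.erase a) Y ∨ Sc (X.erase a) Y) ∧ (∀ b ∈ Y, Gd X (Y.erase b) ∨ Sc X (Y.erase b))

/-- **Module ER2.** At least four of the erasures are good. We give the erased vertices as sets
`P ⊆ X`, `Q ⊆ Y` with `P.card + Q.card = 4`.
Proof. Cases as in module ER1. (1) `P = X`, `Q = ∅` (cards `(3,1)`). (2) `P = ∅`, `Q = Y`.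
(3) `P = {a,a'}`, `Q = {b,b'} = Y`: erasing an element of `Y` gives cards `(3,1)`; erasing `a`
gives `{a',c}` with `par {a',c} {b,b'} = w a'.1 + w c.1 = 1` because `a'.1 = a.1` and
`w a.1 ≠ w c.1`; erasing `a'` gives `{a,c}`, the same. -/
def StER2 : Prop := ∀ (N : ℕ) [NeZero N] (X : Finset (VA N)) (Y : Finset (VB N)), KP X Y →
  ∃ P : Finset (VA N), ∃ Q : Finset (VB N), P ⊆ X ∧ Q ⊆ Y ∧ P.card + Q.card = 4 ∧
    (∀ a ∈ P, Gd (X.erase a) Y) ∧ (∀ b ∈ Q, Gd X (Y.erase b))

/-- **Module CL5.** Sets of type `(5,0)` and `(0,5)` are impossible, those of type `(4,1)` and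
`(1,4)` are members.
Proof. `(5,0)`: for every `a ∈ X` the set `X.erase a` has 4 elements and `Y` is empty, so in
`Gd ∨ Sc` only the case `Blk (X.erase a)` is possible (in the third case of `Sc` the set `X.erase a`
would have card 2); hence the sum of the labels over `X.erase a` is 0, i.e. `a.2 = ∑ x ∈ X, x.2` for
all `a ∈ X`. So `a ↦ a.1` is injective on `X`, but `X` has 5 elements and `Fin 4` only 4:
`Finset.card_le_card_of_injOn` into `univ`.
`(0,5)`: for every `b ∈ Y` only `BlkB (Y.erase b)` is possible, so `b = ∑ y ∈ Y, y` for all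
`b ∈ Y`, and `Y` has at most one element.
`(4,1)`: take `b ∈ Y`; `Y.erase b = ∅`; in `Gd X ∅ ∨ Sc X ∅` only `Blk X` is possible (cards), and
this is the first case of `KP`. `(1,4)`: take `a ∈ X`; `X.erase a = ∅`; only `BlkB Y` is possible. -/
def StCL5 : Prop := ∀ (N : ℕ) [NeZero N] (X : Finset (VA N)) (Y : Finset (VB N)),
  ((X.card = 5 ∧ Y.card = 0) ∨ (X.card = 0 ∧ Y.card = 5) ∨ (X.card = 4 ∧ Y.card = 1) ∨
    (X.card = 1 ∧ Y.card = 4)) →
  (∀ a ∈ X, Gd (X.erase a) Y ∨ Sc (X.erase a) Y) → (∀ b ∈ Y, Gd X (Y.erase b) ∨ Sc X (Y.erase b)) →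
  KP X Y

/-- **Module CL32.** Sets of type `(3,2)` all of whose erasures of a first-kind vertex are good or
special are members.
Proof. `X = {a₁,a₂,a₃}` (`card_eq_three`), `Y = {b,b'}` (`card_eq_two`), `w = b.1 + b'.1`. For
`i ≠ j` the pair `{a_i,a_j}` with `Y` is good, and then `par = w a_i.1 + w a_j.1 = 1`
(so `w a_i.1 ≠ w a_j.1`), or special, and then `Sp a_i a_j b b'` (`Sp` is symmetric in `a a'` and in
`b b'`; the third case of `Sc`: the two-element sets are equal, so the pairs agree up to order; the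
other cases of `Gd` and `Sc` are impossible by the cards). Prove this as a lemma
`pair (h : a ≠ a') (hb : b ≠ b') (h : Gd {a,a'} {b,b'} ∨ Sc {a,a'} {b,b'}) :
w a.1 ≠ w a'.1 ∨ Sp a a' b b'`. The values `w a_i.1` are in `ZMod 2`, so two of them are equal, say
those of `a₁, a₂` (three cases); then `Sp a₁ a₂ b b'`. If `w a₃.1` is different, this is the third
case of `KP` with `(a, a', c) = (a₁, a₂, a₃)`. If `w a₃.1` is the same, then also `Sp a₁ a₃ b b'`,
so `a₁.1 = a₂.1 = a₃.1` and `a₁.2 + a₂.2 = a₁.2 + a₃.2`, so `a₂ = a₃`, a contradiction. -/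
def StCL32 : Prop := ∀ (N : ℕ) [NeZero N] (X : Finset (VA N)) (Y : Finset (VB N)),
  X.card = 3 → Y.card = 2 → (∀ a ∈ X, Gd (X.erase a) Y ∨ Sc (X.erase a) Y) → KP X Y

/-- **Module CL23.** Sets of type `(2,3)` do not occur.
Proof. `X = {a,a'}`, `Y = {b₁,b₂,b₃}`. For `i ≠ j` the set `X` with `{b_i,b_j}` is good, and then
`(b_i.1 + b_j.1) a.1 + (b_i.1 + b_j.1) a'.1 = 1`, or special, and then `Sp a a' b_i b_j` (`Sp` is
symmetric in both pairs; other cases impossible by the cards).
If `a.1 = a'.1 = k`, the first possibility gives `x + x = 1`, impossible; so `Sp a a' b_i b_j` for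
all three pairs. Then `(pr k (b_i.1 + b_j.1), -(b_i.2 + b_j.2))` is the same for the three pairs,
hence `b₁.2 = b₂.2 = b₃.2` and, in each of the coordinates `l = k+1, k+2`:
`b₁ l + b₂ l = b₁ l + b₃ l = b₂ l + b₃ l`, so `b₁ l = b₂ l = b₃ l` (writing `b_i l` for `b_i.1 l`);
then `off k (b_i.1 + b_j.1) = 0` gives the same for `l = k+3`. So the `b_i` can only differ in the
value `b_i.1 k : ZMod 2`; two of the three values are equal, so two of the `b_i` are equal,
a contradiction.
If `a.1 ≠ a'.1`, no pair is special, so the three sums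
`(b_i.1 + b_j.1) a.1 + (b_i.1 + b_j.1) a'.1` are 1; but their sum is 0 as each term occurs twice,
and `1 + 1 + 1 = 1` in `ZMod 2`. -/
def StCL23 : Prop := ∀ (N : ℕ) [NeZero N] (X : Finset (VA N)) (Y : Finset (VB N)),
  X.card = 2 → Y.card = 3 → (∀ b ∈ Y, Gd X (Y.erase b) ∨ Sc X (Y.erase b)) → False

/-- **Module UA.** The first-kind vertex that completes a good set is unique.
Proof. By cards there are two cases (a member has cards `(4,1)`, `(1,4)` or `(3,2)`, so the case
`X.card = 1, Y.card = 3` is impossible).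
(1) `X.card = 3, Y.card = 1`: both `insert a X`, `insert a' X` are blocks. `∑ = 0` gives
`a.2 = - ∑ x ∈ X, x.2 = a'.2`. Put `I = X.image Prod.fst`; `(insert a X).image Prod.fst =
insert a.1 I` has card 4 or 1 and the same for `a'`. If `a.1 ∉ I` then `I.card + 1` is 4 or 1, and
`I` is nonempty, so `I.card = 3`; then also `a'.1 ∉ I` (otherwise the card 3 would be 4 or 1), and
`insert a.1 I = univ` (card 4), so `a'.1 ∈ insert a.1 I`, i.e. `a'.1 = a.1`. If `a.1 ∈ I` then
`I.card` is 4 or 1, and it is at most 3, so `I.card = 1`; then also `a'.1 ∈ I` (otherwise the card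
2 would be 4 or 1), so `a.1 = a'.1`.
(2) `X.card = 2, Y.card = 2, par X Y = 1`: `X = {x,x'}`, `Y = {b,b'}`, `w = b.1 + b'.1`,
`w x.1 + w x'.1 = 1` (so `x.1 ≠ x'.1`). Claim: if `a ∉ X` and `KP (insert a X) Y`, then
`Sp x a b b'` or `Sp x' a b b'`. Indeed `insert a X = {p,p',c}`, `Y = {q,q'}`, `Sp p p' q q'`; two of
the three vertices `a, x, x'` are `p, p'`, and they are not `x, x'`, because `p.1 = p'.1`; `Sp` is
symmetric in both pairs. `Sp x a b b'` gives `off x.1 w = 0` and determines `a` from `x, b, b'`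
(`a.1 = x.1`, `a.2 = (pr .., ..) - x.2`), similarly for `x'`. So we are done unless
`off x.1 w = 0 = off x'.1 w`; but `off k w + off l w = w k + w l` for all `k, l` (`decide`-style:
`fin_cases k, l`, or check `off k w + w k` is the sum of all four coordinates), so this would give
`w x.1 + w x'.1 = 0`, a contradiction. -/
def StUA : Prop := ∀ (N : ℕ) [NeZero N] (X : Finset (VA N)) (Y : Finset (VB N)), Gd X Y →
  ∀ a a', a ∉ X → a' ∉ X → KP (insert a X) Y → KP (insert a' X) Y → a = a'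

/-- **Module UB.** The second-kind vertex that completes a good set is unique.
Proof. By cards there are two cases (`X.card = 2, Y.card = 2` is impossible, since a member has cards
`(4,1)`, `(1,4)` or `(3,2)`).
(1) `X.card = 1, Y.card = 3`: `BlkB (insert b Y)` gives `b = - ∑ y ∈ Y, y`, the same for `b'`.
(2) `X.card = 3, Y.card = 1`: `Y = {y}`. `KP X {b,y}` gives `X = {p,p',c}`, `p.1 = p'.1 = k`,
`w a.1 ≠ w c.1` for `w = b.1 + y.1` (so `c.1 ≠ k`), `off k w = 0`,
`p.2 + p'.2 = (pr k w, -(b.2 + y.2))`; and `KP X {b',y}` gives `X = {q,q',d}` with the same for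
`w' = b'.1 + y.1` and `k' = q.1`. In `X` there is exactly one pair of vertices with the same class, so
`d = c` and `{q,q'} = {p,p'}`, `k' = k` (go through the cases of `q, q', d ∈ {p,p',c}`). Hence
`b.2 + y.2 = b'.2 + y.2`, `w` and `w'` agree at `k+1, k+2` (`pr`), then at `k+3` (`off`), so at
`c.1 ≠ k`, and then at `k`, because `w k = 1 + w c.1`. So `w = w'` and `b = b'`. -/
def StUB : Prop := ∀ (N : ℕ) [NeZero N] (X : Finset (VA N)) (Y : Finset (VB N)), Gd X Y →
  ∀ b b', b ∉ Y → b' ∉ Y → KP X (insert b Y) → KP X (insert b' Y) → b = b'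

/-- **Module UX.** A good set cannot be completed in both ways.
Proof. A member has cards `(4,1)`, `(1,4)` or `(3,2)`. If `X.card = 1, Y.card = 3`, then
`KP (insert a X) Y` has cards `(2,3)`; if `X.card = 2, Y.card = 2`, then `KP X (insert b Y)` has
cards `(2,3)`. So `X.card = 3, Y.card = 1`, `Blk (insert a X)`, and `X = {p,p',c}` with
`p.1 = p'.1`, `w p.1 ≠ w c.1`, so `p.1 ≠ c.1`. The image of `X` under `Prod.fst` is `{p.1, c.1}` with
2 elements, so that of `insert a X` has 2 or 3 elements, not 4 or 1. -/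
def StUX : Prop := ∀ (N : ℕ) [NeZero N] (X : Finset (VA N)) (Y : Finset (VB N)), Gd X Y →
  ∀ a b, a ∉ X → b ∉ Y → KP (insert a X) Y → KP X (insert b Y) → False

/-- **Module CV31.** Nondegenerate sets of type `(3,1)` are covered.
Proof. `Y = {y}`. Let `I = X.image Prod.fst`, `1 ≤ I.card ≤ 3`.
If `I.card = 3`, there is `k ∉ I` (`Fin 4` has 4 elements); `a = (k, -∑ x ∈ X, x.2)` is not in `X`,
`(insert a X).image Prod.fst = insert k I` has card 4, and the sum of the labels is 0.
If `I.card = 1`, `I = {k}`, take the same `a` with this `k`; `a ∉ X` by the hypothesis, and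
`insert k I = {k}` has card 1.
If `I.card = 2`: `X = {x₁,x₂,x₃}`; two of the classes are equal and the third is different: so
`X = {p,p',c}` with `p.1 = p'.1 = k ≠ c.1` (three cases). Let `(s,t) = p.2.1 + p'.2.1` and let `w` be
the function with `w (k+1) = s`, `w (k+2) = t`, `w (k+3) = s + t`, `w k = 1 + w c.1` (exists: define
`w₀ l = if l = k+1 then s else if l = k+2 then t else if l = k+3 then s+t else 0` and
`w = Function.update w₀ k (1 + w₀ c.1)`). Then `b = (w + y.1, -(p.2.2 + p'.2.2) - y.2)` satisfies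
`b.1 + y.1 = w`, `b ≠ y` (as `w ≠ 0`), and `KP X {b,y}`. -/
def StCV31 : Prop := ∀ (N : ℕ) [NeZero N] (X : Finset (VA N)) (Y : Finset (VB N)),
  X.card = 3 → Y.card = 1 → (¬ ∃ a ∈ X, ∑ x ∈ X, x.2 = -a.2) →
  (∃ a, a ∉ X ∧ KP (insert a X) Y) ∨ (∃ b, b ∉ Y ∧ KP X (insert b Y))

/-- **Module CV22.** Nondegenerate odd sets of type `(2,2)` are covered, and so are the
nondegenerate sets of type `(1,3)`.
Proof. First part: `X = {x,x'}`, `Y = {b,b'}`, `w = b.1 + b'.1`, `par X Y = w x.1 + w x'.1 = 1`. For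
all `k, l` we have `off k w + off l w = w k + w l` (`off k w + w k` is the sum of all coordinates). So
exactly one of `off x.1 w`, `off x'.1 w` is 0; by symmetry `off x.1 w = 0`. Take
`a = (x.1, (pr x.1 w, -(b.2 + b'.2)) - x.2)`. Then `Sp x a b b'`; `a ≠ x'` because
`x.1 ≠ x'.1` (`w x.1 ≠ w x'.1`); `a ≠ x`, as otherwise `x.2.2 + x.2.2 = -(b.2 + b'.2)`, against the
hypothesis. So `a ∉ X` and `insert a X = {x, a, x'}` is a member with `c = x'`.
Second part: `b = -∑ y ∈ Y, y` is not in `Y` by the hypothesis, and `insert b Y` has 4 elements and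
sum 0. -/
def StCV22 : Prop := ∀ (N : ℕ) [NeZero N] (X : Finset (VA N)) (Y : Finset (VB N)),
  (X.card = 2 → Y.card = 2 → par X Y = 1 → (¬ ∃ a ∈ X, a.2.2 + a.2.2 = -∑ y ∈ Y, y.2) →
    ∃ a, a ∉ X ∧ KP (insert a X) Y) ∧
  (X.card = 1 → Y.card = 3 → (¬ ∃ b ∈ Y, ∑ y ∈ Y, y = -b) → ∃ b, b ∉ Y ∧ KP X (insert b Y))

/-- **Module DG.** Degenerate triples.
Proof. First: such an `X` is `{a, x, y}` with `a.2 + x.2 + y.2 = -a.2`, so `y.2 = -a.2 - a.2 - x.2`.
So the family is contained in the image of `VA × VA × Fin 4` under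
`(a, x, k) ↦ {a, x, (k, -a.2 - a.2 - x.2)}`, and it has at most `(16N)(16N)·4 = 1024N²` elements
(`card_image_le`, `Fintype.card (VA N) = 16 N`). Second: such a `Y` is `{b, x, y}` with
`y = -b - b - x`, so there are at most `(16N)² = 256N²` of them. -/
def StDG : Prop := ∀ (N : ℕ) [NeZero N],
  ((((univ : Finset (VA N)).powersetCard 3).filter fun X => ∃ a ∈ X, ∑ x ∈ X, x.2 = -a.2).card
    ≤ 1024 * N ^ 2) ∧
  ((((univ : Finset (VB N)).powersetCard 3).filter fun Y => ∃ b ∈ Y, ∑ y ∈ Y, y = -b).card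
    ≤ 256 * N ^ 2)

/-- **Module DQ.** Degenerate sets of type `(2,2)`.
Proof. `X = {a, a'}`, `Y = {b, b'}` with `a.2.2 + a.2.2 = -(b.2 + b'.2)`, so
`b'.2 = -(a.2.2 + a.2.2) - b.2`. So the family is contained in the image of
`VA × VA × VB × (Fin 4 → ZMod 2)` under
`(a, a', b, t) ↦ ({a, a'}, {b, (t, -(a.2.2 + a.2.2) - b.2)})`, which has at most
`16N·16N·16N·16 = 65536N³` elements. -/
def StDQ : Prop := ∀ (N : ℕ) [NeZero N],
  ((((univ : Finset (VA N)).powersetCard 2) ×ˢ ((univ : Finset (VB N)).powersetCard 2)).filter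
    fun p => ∃ a ∈ p.1, a.2.2 + a.2.2 = -∑ y ∈ p.2, y.2).card ≤ 65536 * N ^ 3

/-- **Module NQ.** The number of odd sets of type `(2,2)` is at least `6144N⁴`.
Proof. Let `T` be the set of all `(a,a',b,b')` in `VA × VA × VB × VB` with `a.1 < a'.1`,
`b.1 a.1 + b.1 a'.1 = 0`, `b'.1 a.1 + b'.1 a'.1 = 1`. Then `a ≠ a'`, `b ≠ b'` and
`par {a,a'} {b,b'} = 1`, and the map `(a,a',b,b') ↦ ({a,a'},{b,b'})` is injective on `T` (`a` is the
vertex of `{a,a'}` of smaller class, `b` is the one of `{b,b'}` on which `b.1 a.1 + b.1 a'.1`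
vanishes). Count: `T` is in bijection with a product: for the class pair `(k,l)`, `k < l`, (6 of
them), labels of `a, a'` arbitrary (`(4N)²`), `b ∈ B₀ × ZMod N`, `b' ∈ B₁ × ZMod N`, where
`B_i = {t : Fin 4 → ZMod 2 | t k + t l = i}` has 8 elements (`decide` for each of the six pairs). So
`T` has `6·(4N)²·(8N)² = 6144N⁴` elements.
(One way: the injection from the product type
`{p : Fin 4 × Fin 4 × (Fin 4 → ZMod 2) × (Fin 4 → ZMod 2) // p.1 < p.2.1 ∧ p.2.2.1 p.1 + p.2.2.1 p.2.1
= 0 ∧ p.2.2.2 p.1 + p.2.2.2 p.2.1 = 1} × (ZMod 2 × ZMod 2)² × (ZMod N)⁴`, whose first factor has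
`6·64 = 384` elements by `decide` and the rest `16 N⁴`.) -/
def StNQ : Prop := ∀ (N : ℕ) [NeZero N],
  6144 * N ^ 4 ≤ ((((univ : Finset (VA N)).powersetCard 2) ×ˢ
    ((univ : Finset (VB N)).powersetCard 2)).filter fun p => par p.1 p.2 = 1).card

end Pool.Agent.Helper34.LF
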