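import Mathlib
import Pool.Agent.Helper33.Flat
import Pool.Agent.Helper34.LF.St

set_option autoImplicit false

open Finset
open scoped FinsetFamily

namespace Pool.Agent.Helper34.LF

open Pool.Agent.Helper33.Flat

variable {N : ℕ}

lemma toLeft_erase_inl (S : Finset (VA N ⊕ VB N)) (a : VA N) :
    (S.erase (Sum.inl a)).toLeft = S.toLeft.erase a := by ext x; simp

lemma toRight_erase_inl (S : Finset (VA N ⊕ VB N)) (a : VA N) :
    (S.erase (Sum.inl a)).toRight = S.toRight := by ext x; simp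

lemma toLeft_erase_inr (S : Finset (VA N ⊕ VB N)) (b : VB N) :
    (S.erase (Sum.inr b)).toLeft = S.toLeft := by ext x; simp

lemma toRight_erase_inr (S : Finset (VA N ⊕ VB N)) (b : VB N) :
    (S.erase (Sum.inr b)).toRight = S.toRight.erase b := by ext x; simp

lemma KP_card {X : Finset (VA N)} {Y : Finset (VB N)} (h : KP X Y) : X.card + Y.card = 5 := by
  rcases h with ⟨h, h'⟩ | ⟨h, h'⟩ | ⟨a, a', c, b, b', h1, h2, h3, h4, rfl, rfl, -⟩
  · rw [h.1, h']
  · rw [h, h'.1]
  · rw [card_pair h4, card_eq_three.2 ⟨a, a', c, h1, h2, h3, rfl⟩]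

section counting

variable [NeZero N]

open Classical in
/-- the family of five-element sets -/
noncomputable def K (N : ℕ) [NeZero N] : Finset (Finset (VA N ⊕ VB N)) :=
  Finset.univ.filter fun S => KP S.toLeft S.toRight

lemma mem_K {S : Finset (VA N ⊕ VB N)} : S ∈ K N ↔ KP S.toLeft S.toRight := by
  simp [K]

/-- goodness of a set of vertices -/
def GdS (S : Finset (VA N ⊕ VB N)) : Prop := Gd S.toLeft S.toRight

/-- specialness of a set of vertices -/
def ScS (S : Finset (VA N ⊕ VB N)) : Prop := Sc S.toLeft S.toRight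

lemma K_erase (hER : StER1) {S : Finset (VA N ⊕ VB N)} (hS : S ∈ K N) {v : VA N ⊕ VB N}
    (hv : v ∈ S) : GdS (S.erase v) ∨ ScS (S.erase v) := by
  obtain ⟨h1, h2⟩ := hER N _ _ (mem_K.1 hS)
  rcases v with a | b
  · have := h1 a (by simpa using hv)
    unfold GdS ScS
    rw [toLeft_erase_inl, toRight_erase_inl]
    exact this
  · have := h2 b (by simpa using hv)
    unfold GdS ScS
    rw [toLeft_erase_inr, toRight_erase_inr]
    exact this

lemma K_closed (hER : StER1) (hC5 : StCL5) (hC32 : StCL32) (hC23 : StCL23) :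
    Closed 4 (K N) := by
  refine ⟨fun S hS => ?_, fun S hc hS => mem_K.2 ?_⟩
  · rw [← card_toLeft_add_card_toRight (u := S)]
    exact KP_card (mem_K.1 hS)
  · have hall : ∀ v ∈ S, GdS (S.erase v) ∨ ScS (S.erase v) := by
      intro v hv
      obtain ⟨s, hs, a, ha, he⟩ := mem_shadow_iff.1 (hS v hv)
      rw [← he]
      exact K_erase hER hs ha
    have h1 : ∀ a ∈ S.toLeft, Gd (S.toLeft.erase a) S.toRight ∨ Sc (S.toLeft.erase a) S.toRight := by
      intro a ha
      have := hall (Sum.inl a) (by simpa using ha)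
      unfold GdS ScS at this
      rwa [toLeft_erase_inl, toRight_erase_inl] at this
    have h2 : ∀ b ∈ S.toRight, Gd S.toLeft (S.toRight.erase b) ∨ Sc S.toLeft (S.toRight.erase b) := by
      intro b hb
      have := hall (Sum.inr b) (by simpa using hb)
      unfold GdS ScS at this
      rwa [toLeft_erase_inr, toRight_erase_inr] at this
    have hsum := card_toLeft_add_card_toRight (u := S)
    by_cases c32 : S.toLeft.card = 3
    · exact hC32 N _ _ c32 (by omega) h1
    · by_cases c23 : S.toLeft.card = 2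
      · exact (hC23 N _ _ c23 (by omega) h2).elim
      · exact hC5 N _ _ (by omega) h1 h2

open Classical in
/-- covered good sets -/
noncomputable def D (N : ℕ) [NeZero N] : Finset (Finset (VA N ⊕ VB N)) := (∂ (K N)).filter GdS

/-- A good set determines the vertex that completes it. -/
lemma complete_unique (hUA : StUA) (hUB : StUB) (hUX : StUX) {S : Finset (VA N ⊕ VB N)}
    (hS : GdS S) {v w : VA N ⊕ VB N} (hv : v ∉ S) (hw : w ∉ S) (h1 : insert v S ∈ K N)
    (h2 : insert w S ∈ K N) : v = w := by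
  rw [mem_K] at h1 h2
  rcases v with a | b <;> rcases w with a' | b' <;>
    simp only [toLeft_insert_inl, toLeft_insert_inr, toRight_insert_inl, toRight_insert_inr] at h1 h2
  · rw [hUA N _ _ hS a a' (by simpa using hv) (by simpa using hw) h1 h2]
  · exact (hUX N _ _ hS a b' (by simpa using hv) (by simpa using hw) h1 h2).elim
  · exact (hUX N _ _ hS a' b (by simpa using hw) (by simpa using hv) h2 h1).elim
  · rw [hUB N _ _ hS b b' (by simpa using hv) (by simpa using hw) h1 h2]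

open Classical in
lemma four_le (hE2 : StER2) {S : Finset (VA N ⊕ VB N)} (hS : S ∈ K N) :
    4 ≤ (S.filter fun v => GdS (S.erase v)).card := by
  obtain ⟨P, Q, hP, hQ, hc, h1, h2⟩ := hE2 N _ _ (mem_K.1 hS)
  refine (le_of_eq (by rw [card_disjSum, hc] : 4 = (P.disjSum Q).card)).trans (card_le_card ?_)
  intro v hv
  rw [mem_filter]
  rcases v with a | b
  · rw [inl_mem_disjSum] at hv
    refine ⟨by simpa using hP hv, ?_⟩
    unfold GdS
    rw [toLeft_erase_inl, toRight_erase_inl]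
    exact h1 a hv
  · rw [inr_mem_disjSum] at hv
    refine ⟨by simpa using hQ hv, ?_⟩
    unfold GdS
    rw [toLeft_erase_inr, toRight_erase_inr]
    exact h2 b hv

/-- Double counting. -/
lemma four_mul_card_le (hER : StER1) (hC5 : StCL5) (hC32 : StCL32) (hC23 : StCL23) (hE2 : StER2)
    (hUA : StUA) (hUB : StUB) (hUX : StUX) : (K N).card * 4 ≤ (D N).card * 1 := by
  classical
  refine Finset.card_mul_le_card_mul (fun (Y X : Finset (VA N ⊕ VB N)) => X ⊆ Y) ?_ ?_
  · intro Y hY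
    refine (four_le hE2 hY).trans ?_
    rw [bipartiteAbove]
    refine Finset.card_le_card_of_injOn (fun v => Y.erase v) ?_ ?_
    · intro v hv
      rw [mem_coe, mem_filter] at hv
      rw [mem_coe, mem_filter]
      refine ⟨mem_filter.2 ⟨erase_mem_shadow hY hv.1, hv.2⟩, erase_subset _ _⟩
    · intro v hv w hw h
      rw [mem_coe, mem_filter] at hv hw
      by_contra hne
      have : v ∈ Y.erase w := mem_erase.2 ⟨hne, hv.1⟩
      simp only at h
      rw [← h] at this
      exact notMem_erase v Y this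
  · intro X hX
    have hcl := K_closed (N := N) hER hC5 hC32 hC23
    have hG : GdS X := (mem_filter.1 hX).2
    rw [bipartiteBelow, Finset.card_le_one]
    have hX3 : X.card = 4 := shadow_card hcl X (mem_filter.1 hX).1
    have ins : ∀ Y ∈ K N, X ⊆ Y → ∃ v, v ∉ X ∧ Y = insert v X := by
      intro Y hY hXY
      have hc := hcl.1 Y hY
      have h1 : (Y \ X).card = 1 := by
        rw [card_sdiff_of_subset hXY]; omega
      obtain ⟨v, hv⟩ := card_eq_one.1 h1
      refine ⟨v, ?_, ?_⟩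
      · have : v ∈ Y \ X := by rw [hv]; exact mem_singleton_self v
        exact (mem_sdiff.1 this).2
      · rw [insert_eq, ← hv, sdiff_union_of_subset hXY]
    intro Y hY Y' hY'
    rw [mem_filter] at hY hY'
    obtain ⟨v, hv, rfl⟩ := ins Y hY.1 hY.2
    obtain ⟨w, hw, rfl⟩ := ins Y' hY'.1 hY'.2
    rw [complete_unique hUA hUB hUX hG hv hw hY.1 hY'.1]

lemma mem_D {S : Finset (VA N ⊕ VB N)} {v : VA N ⊕ VB N} (hv : v ∉ S) (hG : GdS S)
    (hK : insert v S ∈ K N) : S ∈ D N := by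
  classical
  exact mem_filter.2 ⟨mem_shadow_iff_insert_mem.2 ⟨v, hv, hK⟩, hG⟩

lemma mem_D_left {X : Finset (VA N)} {Y : Finset (VB N)} (hG : Gd X Y)
    (h : ∃ a, a ∉ X ∧ KP (insert a X) Y) : X.disjSum Y ∈ D N := by
  obtain ⟨a, ha, hK⟩ := h
  refine mem_D (v := Sum.inl a) (by simpa using ha) ?_ ?_
  · unfold GdS; simpa using hG
  · rw [mem_K]; simpa using hK

lemma mem_D_right {X : Finset (VA N)} {Y : Finset (VB N)} (hG : Gd X Y)
    (h : ∃ b, b ∉ Y ∧ KP X (insert b Y)) : X.disjSum Y ∈ D N := by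
  obtain ⟨b, hb, hK⟩ := h
  refine mem_D (v := Sum.inr b) (by simpa using hb) ?_ ?_
  · unfold GdS; simpa using hG
  · rw [mem_K]; simpa using hK

lemma card_VA : Fintype.card (VA N) = 16 * N := by
  rw [Fintype.card_prod, Fintype.card_prod, Fintype.card_prod, ZMod.card, ZMod.card, Fintype.card_fin]
  ring

lemma card_VB : Fintype.card (VB N) = 16 * N := by
  rw [Fintype.card_prod, Fintype.card_fun, ZMod.card, ZMod.card, Fintype.card_fin]
  norm_num

open Classical in
/-- nondegenerate triples -/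
noncomputable def T31 (N : ℕ) [NeZero N] : Finset (Finset (VA N) × Finset (VB N)) :=
  (((univ : Finset (VA N)).powersetCard 3).filter fun X => ¬ ∃ a ∈ X, ∑ x ∈ X, x.2 = -a.2) ×ˢ
    ((univ : Finset (VB N)).powersetCard 1)

open Classical in
noncomputable def T13 (N : ℕ) [NeZero N] : Finset (Finset (VA N) × Finset (VB N)) :=
  ((univ : Finset (VA N)).powersetCard 1) ×ˢ
  (((univ : Finset (VB N)).powersetCard 3).filter fun Y => ¬ ∃ b ∈ Y, ∑ y ∈ Y, y = -b)

open Classical in
noncomputable def T22 (N : ℕ) [NeZero N] : Finset (Finset (VA N) × Finset (VB N)) :=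
  ((((univ : Finset (VA N)).powersetCard 2) ×ˢ
    ((univ : Finset (VB N)).powersetCard 2)).filter fun p => par p.1 p.2 = 1).filter
    fun p => ¬ ∃ a ∈ p.1, a.2.2 + a.2.2 = -∑ y ∈ p.2, y.2

lemma card_D_ge (hV31 : StCV31) (hV22 : StCV22) :
    (T31 N).card + (T13 N).card + (T22 N).card ≤ (D N).card := by
  classical
  have d1 : Disjoint (T31 N) (T13 N) := by
    rw [Finset.disjoint_left]
    rintro ⟨X, Y⟩ h1 h2
    simp only [T31, T13, mem_product, mem_filter, mem_powersetCard] at h1 h2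
    omega
  have d2 : Disjoint (T31 N ∪ T13 N) (T22 N) := by
    rw [Finset.disjoint_left]
    rintro ⟨X, Y⟩ h1 h2
    simp only [T31, T13, T22, mem_union, mem_product, mem_filter, mem_powersetCard] at h1 h2
    omega
  rw [← card_union_of_disjoint d1, ← card_union_of_disjoint d2]
  refine Finset.card_le_card_of_injOn (fun p => p.1.disjSum p.2) ?_ ?_
  · rintro ⟨X, Y⟩ hp
    rw [mem_coe] at hp ⊢
    simp only [mem_union] at hp
    rcases hp with (hp | hp) | hp
    · simp only [T31, mem_product, mem_filter, mem_powersetCard] at hp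
      obtain ⟨⟨⟨-, h1⟩, h2⟩, -, h3⟩ := hp
      rcases hV31 N X Y h1 h3 h2 with h | h
      · exact mem_D_left (Or.inl ⟨h1, h3⟩) h
      · exact mem_D_right (Or.inl ⟨h1, h3⟩) h
    · simp only [T13, mem_product, mem_filter, mem_powersetCard] at hp
      obtain ⟨⟨-, h1⟩, ⟨-, h3⟩, h2⟩ := hp
      exact mem_D_right (Or.inr (Or.inl ⟨h1, h3⟩)) ((hV22 N X Y).2 h1 h3 h2)
    · simp only [T22, mem_product, mem_filter, mem_powersetCard] at hp
      obtain ⟨⟨⟨⟨-, h1⟩, -, h3⟩, h4⟩, h2⟩ := hp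
      exact mem_D_left (Or.inr (Or.inr ⟨h1, h3, h4⟩)) ((hV22 N X Y).1 h1 h3 h4 h2)
  · rintro ⟨X, Y⟩ - ⟨X', Y'⟩ - h
    simp only [disjSum_inj] at h
    rw [h.1, h.2]

lemma card_T31 (hDG : StDG) : 16 * N * (16 * N).choose 3 ≤ (T31 N).card + 16384 * N ^ 3 := by
  classical
  have h1 := (hDG N).1
  have h2 := card_filter_add_card_filter_not (s := (univ : Finset (VA N)).powersetCard 3)
    (fun X => ∃ a ∈ X, ∑ x ∈ X, x.2 = -a.2)
  rw [card_powersetCard, card_univ, card_VA] at h2
  rw [T31, card_product, card_powersetCard, card_univ, card_VB, Nat.choose_one_right]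
  set u := (((univ : Finset (VA N)).powersetCard 3).filter
    fun X => ¬ ∃ a ∈ X, ∑ x ∈ X, x.2 = -a.2).card with hu
  set t := (16 * N).choose 3
  have h3 : t ≤ u + 1024 * N ^ 2 := by
    rw [← h2, add_comm]
    gcongr
  calc 16 * N * t ≤ 16 * N * (u + 1024 * N ^ 2) := by gcongr
    _ = u * (16 * N) + 16384 * N ^ 3 := by ring

lemma card_T13 (hDG : StDG) : 16 * N * (16 * N).choose 3 ≤ (T13 N).card + 4096 * N ^ 3 := by
  classical
  have h1 := (hDG N).2
  have h2 := card_filter_add_card_filter_not (s := (univ : Finset (VB N)).powersetCard 3)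
    (fun Y => ∃ b ∈ Y, ∑ y ∈ Y, y = -b)
  rw [card_powersetCard, card_univ, card_VB] at h2
  rw [T13, card_product, card_powersetCard, card_univ, card_VA, Nat.choose_one_right]
  set u := (((univ : Finset (VB N)).powersetCard 3).filter
    fun Y => ¬ ∃ b ∈ Y, ∑ y ∈ Y, y = -b).card with hu
  set t := (16 * N).choose 3
  have h3 : t ≤ u + 256 * N ^ 2 := by
    rw [← h2, add_comm]
    gcongr
  calc 16 * N * t ≤ 16 * N * (u + 256 * N ^ 2) := by gcongr
    _ = 16 * N * u + 4096 * N ^ 3 := by ring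

lemma card_T22 (hDQ : StDQ) (hNQ : StNQ) : 6144 * N ^ 4 ≤ (T22 N).card + 65536 * N ^ 3 := by
  classical
  have h1 := hDQ N
  have h2 := hNQ N
  set Q := (((univ : Finset (VA N)).powersetCard 2) ×ˢ ((univ : Finset (VB N)).powersetCard 2))
    with hQ
  set R := Q.filter fun p => par p.1 p.2 = 1 with hR
  have h3 := card_filter_add_card_filter_not (s := R)
    (fun p => ∃ a ∈ p.1, a.2.2 + a.2.2 = -∑ y ∈ p.2, y.2)
  have h4 : (R.filter fun p => ∃ a ∈ p.1, a.2.2 + a.2.2 = -∑ y ∈ p.2, y.2).card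
      ≤ (Q.filter fun p => ∃ a ∈ p.1, a.2.2 + a.2.2 = -∑ y ∈ p.2, y.2).card :=
    card_le_card (filter_subset_filter _ (filter_subset _ _))
  have h5 : (T22 N).card
      = (R.filter fun p => ¬ ∃ a ∈ p.1, a.2.2 + a.2.2 = -∑ y ∈ p.2, y.2).card := by
    rw [T22, hR, hQ]
  have h2' : 6144 * N ^ 4 ≤ R.card := by
    convert h2 using 2
  have h1' : (Q.filter fun p => ∃ a ∈ p.1, a.2.2 + a.2.2 = -∑ y ∈ p.2, y.2).card
      ≤ 65536 * N ^ 3 := by
    convert h1 using 2
  rw [h5]
  omega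

end counting

/-- The thirteen modules together. -/
structure All : Prop where
  er1 : StER1
  er2 : StER2
  cl5 : StCL5
  cl32 : StCL32
  cl23 : StCL23
  ua : StUA
  ub : StUB
  ux : StUX
  cv31 : StCV31
  cv22 : StCV22
  dg : StDG
  dq : StDQ
  nq : StNQ

/-- Final count for the construction. -/
lemma three_card_D (h : All) [NeZero N] : 83968 * N ^ 4 ≤ 3 * (D N).card + 270336 * N ^ 3 := by
  have h1 := card_D_ge (N := N) h.cv31 h.cv22
  have h2 := card_T31 (N := N) h.dg
  have h3 := card_T13 (N := N) h.dg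
  have h4 := card_T22 (N := N) h.dq h.nq
  have h5 : 4096 * N ^ 3 ≤ 6 * (16 * N).choose 3 + 768 * N ^ 2 := by
    have h6 : (16 * N).choose 3 * 6 = (16 * N) * (16 * N - 1) * (16 * N - 2) := by
      have := Nat.descFactorial_eq_factorial_mul_choose (16 * N) 3
      simp only [Nat.descFactorial_succ, Nat.descFactorial_zero, Nat.factorial, Nat.sub_zero,
        mul_one, Nat.succ_eq_add_one] at this
      norm_num at this
      rw [mul_comm, ← this]
      ring
    have hN : 1 ≤ N := Nat.one_le_iff_ne_zero.2 (NeZero.ne N)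
    obtain ⟨k, hk⟩ : ∃ k, 16 * N = k + 2 := ⟨16 * N - 2, by omega⟩
    have h7 : (16 * N) * (16 * N - 1) * (16 * N - 2) + 768 * N ^ 2 ≥ 4096 * N ^ 3 := by
      have h8 : 4096 * N ^ 3 = (16 * N) ^ 3 := by ring
      have h9 : 768 * N ^ 2 = 3 * (16 * N) ^ 2 := by ring
      rw [h8, h9, hk]
      have e1 : k + 2 - 1 = k + 1 := by omega
      have e2 : k + 2 - 2 = k := by omega
      rw [e1, e2]
      nlinarith
    linarith
  have h6 : 16 * N * (4096 * N ^ 3) ≤ 16 * N * (6 * (16 * N).choose 3 + 768 * N ^ 2) := by gcongr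
  nlinarith

/-- The antichain obtained from the construction. -/
lemma exists_flat_four (h : All) [NeZero N] {n : ℕ} (f : (VA N ⊕ VB N) ↪ Fin n) (hn : 4 ≤ n) :
    ∃ 𝒜 : Finset (Finset (Fin n)), IsFlatMax n 4 𝒜 ∧
      4 * 𝒜.card + 3 * (D N).card ≤ 4 * n.choose 4 := by
  classical
  have hcl := K_closed (N := N) h.er1 h.cl5 h.cl32 h.cl23
  obtain ⟨𝒜, h0, h1⟩ := exists_flat f (K N) (by norm_num) hn (by convert hcl)
  have h2 := four_mul_card_le (N := N) h.er1 h.cl5 h.cl32 h.cl23 h.er2 h.ua h.ub h.ux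
  have h3 : (D N).card ≤ (∂ (K N)).card := card_filter_le _ _
  refine ⟨𝒜, h0, ?_⟩
  have h4 : 𝒜.card + (∂ (K N)).card = (K N).card + n.choose 4 := by convert h1
  omega

/-- The upper bound, from the modules. -/
theorem final (h : All) (ε : ℝ) (hε : 0 < ε) : ∃ n₀ : ℕ, ∀ n ≥ n₀,
    ∃ 𝒜 : Finset (Finset (Fin n)), IsFlatMax n 4 𝒜 ∧
      (𝒜.card : ℝ) ≤ (133 / 256 + ε) * (n.choose 4 : ℝ) := by
  obtain ⟨m, hm⟩ := exists_nat_gt (1000000 / ε)
  refine ⟨m + 64, fun n hn => ?_⟩
  have hn6 : 64 ≤ n := by omega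
  obtain ⟨N, hN1, hN2, hN3⟩ : ∃ N : ℕ, 1 ≤ N ∧ 32 * N ≤ n ∧ n ≤ 32 * N + 31 :=
    ⟨n / 32, by omega, by omega, by omega⟩
  have : NeZero N := ⟨by omega⟩
  have hcard : Fintype.card (VA N ⊕ VB N) ≤ Fintype.card (Fin n) := by
    rw [Fintype.card_sum, card_VA, card_VB, Fintype.card_fin]
    omega
  obtain ⟨f⟩ := Function.Embedding.nonempty_of_card_le hcard
  obtain ⟨𝒜, h0, h1⟩ := exists_flat_four h f (by omega)
  refine ⟨𝒜, h0, ?_⟩
  have h2 := three_card_D h (N := N)
  have h3 : 4 * 𝒜.card + 83968 * N ^ 4 ≤ 4 * n.choose 4 + 270336 * N ^ 3 := by omega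
  have h4 : (4 : ℝ) * 𝒜.card + 83968 * (N : ℝ) ^ 4
      ≤ 4 * (n.choose 4 : ℝ) + 270336 * (N : ℝ) ^ 3 := by
    exact_mod_cast h3
  have hch : (n.choose 4 : ℝ) * 24 = (n : ℝ) * (n - 1) * (n - 2) * (n - 3) := by
    have h5 : n.choose 4 * 24 = n * (n - 1) * (n - 2) * (n - 3) := by
      have := Nat.descFactorial_eq_factorial_mul_choose n 4
      simp only [Nat.descFactorial_succ, Nat.descFactorial_zero, Nat.factorial, Nat.sub_zero,
        mul_one, Nat.succ_eq_add_one] at this
      norm_num at this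
      rw [mul_comm, ← this]
      ring
    have h6 : ((n.choose 4 * 24 : ℕ) : ℝ) = ((n * (n - 1) * (n - 2) * (n - 3) : ℕ) : ℝ) := by
      rw [h5]
    rw [Nat.cast_mul, Nat.cast_mul, Nat.cast_mul, Nat.cast_mul, Nat.cast_sub (by omega),
      Nat.cast_sub (by omega), Nat.cast_sub (by omega)] at h6
    simpa using h6
  have hNr1 : (32 : ℝ) * N ≤ n := by exact_mod_cast hN2
  have hNr2 : (n : ℝ) ≤ 32 * N + 31 := by exact_mod_cast hN3
  have hn6r : (64 : ℝ) ≤ n := by exact_mod_cast hn6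
  have hmn : 1000000 / ε ≤ (n : ℝ) := by
    have : (m : ℝ) + 64 ≤ n := by exact_mod_cast hn
    linarith
  have hmn' : 1000000 ≤ ε * n := by
    rw [div_le_iff₀ hε] at hmn
    linarith
  set x : ℝ := (n : ℝ) with hx
  set y : ℝ := (N : ℝ) with hy
  have hy0 : (x - 31) / 32 ≤ y := by linarith
  have hy4 : ((x - 31) / 32) ^ 4 ≤ y ^ 4 := by
    apply pow_le_pow_left₀ _ hy0
    linarith
  have hy3 : y ^ 3 ≤ (x / 32) ^ 3 := by
    apply pow_le_pow_left₀ (by positivity)
    linarith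
  have hx3 : 0 ≤ x ^ 3 := by positivity
  -- lower bound for the falling product
  have hch2 : x ^ 4 / 16 ≤ x * (x - 1) * (x - 2) * (x - 3) := by
    have e1 : x / 2 ≤ x - 1 := by linarith
    have e2 : x / 2 ≤ x - 2 := by linarith
    have e3 : x / 2 ≤ x - 3 := by linarith
    have e4 : x / 2 * (x / 2) ≤ (x - 1) * (x - 2) := mul_le_mul e1 e2 (by linarith) (by linarith)
    have e5 : x / 2 * (x / 2) * (x / 2) ≤ (x - 1) * (x - 2) * (x - 3) :=
      mul_le_mul e4 e3 (by linarith) (by nlinarith)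
    have e6 : x * (x / 2 * (x / 2) * (x / 2)) ≤ x * ((x - 1) * (x - 2) * (x - 3)) :=
      mul_le_mul_of_nonneg_left e5 (by linarith)
    have e7 : x ^ 4 / 16 ≤ x * (x / 2 * (x / 2) * (x / 2)) := by
      have : x * (x / 2 * (x / 2) * (x / 2)) = x ^ 4 / 8 := by ring
      rw [this]
      have : 0 ≤ x ^ 4 := by positivity
      linarith
    calc x ^ 4 / 16 ≤ x * (x / 2 * (x / 2) * (x / 2)) := e7
      _ ≤ x * ((x - 1) * (x - 2) * (x - 3)) := e6
      _ = x * (x - 1) * (x - 2) * (x - 3) := by ring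
  have hup : x * (x - 1) * (x - 2) * (x - 3) ≤ x ^ 4 := by
    have e1 : (x - 1) * (x - 2) ≤ x * x := mul_le_mul (by linarith) (by linarith) (by linarith) (by linarith)
    have e2 : (x - 1) * (x - 2) * (x - 3) ≤ x * x * x :=
      mul_le_mul e1 (by linarith) (by linarith) (by positivity)
    calc x * (x - 1) * (x - 2) * (x - 3) = x * ((x - 1) * (x - 2) * (x - 3)) := by ring
      _ ≤ x * (x * x * x) := mul_le_mul_of_nonneg_left e2 (by linarith)
      _ = x ^ 4 := by ring
  have hb : x ^ 4 - 124 * x ^ 3 ≤ (x - 31) ^ 4 := by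
    have : (x - 31) ^ 4 = x ^ 4 - 124 * x ^ 3 + 5766 * x ^ 2 - 119164 * x + 923521 := by ring
    rw [this]
    nlinarith
  have hb4 : (x ^ 4 - 124 * x ^ 3) / 1048576 ≤ y ^ 4 := by
    have : ((x - 31) / 32) ^ 4 = (x - 31) ^ 4 / 1048576 := by ring
    rw [this] at hy4
    linarith
  have hb3 : y ^ 3 ≤ x ^ 3 / 32768 := by
    have : (x / 32) ^ 3 = x ^ 3 / 32768 := by ring
    linarith
  have hc : (n.choose 4 : ℝ) = x * (x - 1) * (x - 2) * (x - 3) / 24 := by linarith
  set F : ℝ := x * (x - 1) * (x - 2) * (x - 3) with hF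
  rw [hc] at h4 ⊢
  have key2 : 1000 * x ^ 3 ≤ ε * F / 24 := by
    have e1 : ε * (x ^ 4 / 16) ≤ ε * F := mul_le_mul_of_nonneg_left hch2 hε.le
    have e2 : 1000000 * x ^ 3 ≤ ε * x * x ^ 3 := mul_le_mul_of_nonneg_right hmn' hx3
    have e3 : ε * (x ^ 4 / 16) = ε * x * x ^ 3 / 16 := by ring
    linarith
  have e : (133 / 256 + ε) * (F / 24) = 133 / 256 * (F / 24) + ε * F / 24 := by ring
  rw [e]
  linarith

end Pool.Agent.Helper34.LF
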