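import Mathlib
import Pool.Agent.Helper34.LF.St
import Pool.Agent.Helper19.LF.M_CL23

set_option autoImplicit false

open Finset Pool.Agent.Helper34.LF

namespace Pool.Agent.Helper34.LF.MUA

open Pool.Agent.Helper19.LF

variable {N : ℕ}

lemma Sp_swap {a a' : VA N} {b b' : VB N} (h : Sp a a' b b') : Sp a' a b b' := by
  obtain ⟨s1, s2, s3⟩ := h
  refine ⟨s1.symm, ?_, ?_⟩
  · rw [← s1]; exact s2
  · rw [add_comm, s3, s1]

lemma Sp_swapB {a a' : VA N} {b b' : VB N} (h : Sp a a' b b') : Sp a a' b' b := by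
  obtain ⟨s1, s2, s3⟩ := h
  refine ⟨s1, ?_, ?_⟩
  · rw [add_comm]; exact s2
  · rw [s3, add_comm b.1, add_comm b.2]

lemma off_add : ∀ (k l : Fin 4) (w : Fin 4 → ZMod 2), off k w + off l w = w k + w l := by
  unfold off
  decide

lemma key {x x' a : VA N} {b b' : VB N} (hxx : x ≠ x') (hb : b ≠ b')
    (hp : par {x, x'} {b, b'} = 1) (h : KP (insert a {x, x'}) {b, b'}) (ha : a ∉ ({x, x'} : Finset (VA N))) :
    Sp x a b b' ∨ Sp x' a b b' := by
  have hc3 : (insert a ({x, x'} : Finset (VA N))).card = 3 := by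
    rw [card_insert_of_notMem ha, card_pair hxx]
  have hneq : x.1 ≠ x'.1 := by
    intro e
    unfold par at hp
    rw [sum_pair hxx, sum_pair hb, sum_pair hb, e, CharTwo.add_self_eq_zero] at hp
    exact absurd hp (by decide)
  rcases h with ⟨h, _⟩ | ⟨h, _⟩ | ⟨p, p', c, q, q', h1, h2, h3, h4, h5, h6, h7, _⟩
  · have := h.1
    omega
  · omega
  · have hs : Sp p p' b b' := by
      rcases pairs hb h6 with ⟨rfl, rfl⟩ | ⟨rfl, rfl⟩
      · exact h7
      · exact Sp_swapB h7
    have m1 : p ∈ insert a ({x, x'} : Finset (VA N)) := by rw [h5]; simp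
    have m2 : p' ∈ insert a ({x, x'} : Finset (VA N)) := by rw [h5]; simp
    simp only [mem_insert, mem_singleton] at m1 m2
    rcases m1 with rfl | rfl | rfl <;> rcases m2 with rfl | rfl | rfl
    · exact absurd rfl h1
    · exact Or.inl (Sp_swap hs)
    · exact Or.inr (Sp_swap hs)
    · exact Or.inl hs
    · exact absurd rfl h1
    · exact absurd hs.1 hneq
    · exact Or.inr hs
    · exact absurd hs.1.symm hneq
    · exact absurd rfl h1

lemma Sp_inj {x a a' : VA N} {b b' : VB N} (h : Sp x a b b') (h' : Sp x a' b b') : a = a' :=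
  Prod.ext (h.1.symm.trans h'.1) (add_left_cancel (h.2.2.trans h'.2.2.symm))

lemma Sp_excl {x x' a a' : VA N} {b b' : VB N} (hxx : x ≠ x') (hb : b ≠ b')
    (hp : par {x, x'} {b, b'} = 1) (h : Sp x a b b') (h' : Sp x' a' b b') : False := by
  have := off_add x.1 x'.1 (b.1 + b'.1)
  rw [h.2.1, h'.2.1] at this
  unfold par at hp
  rw [sum_pair hxx, sum_pair hb, sum_pair hb] at hp
  simp only [Pi.add_apply] at this
  rw [← this] at hp
  exact absurd hp (by decide)

lemma blk_case {X : Finset (VA N)} (hX : X.card = 3) {a a' : VA N} (ha : a ∉ X) (ha' : a' ∉ X)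
    (h : Blk (insert a X)) (h' : Blk (insert a' X)) : a = a' := by
  obtain ⟨-, h2, h3⟩ := h
  obtain ⟨-, h2', h3'⟩ := h'
  rw [sum_insert ha] at h3
  rw [sum_insert ha'] at h3'
  rw [image_insert] at h2 h2'
  refine Prod.ext ?_ (add_right_cancel (h3.trans h3'.symm))
  have hI : (X.image Prod.fst).card ≤ 3 := hX ▸ card_image_le
  have hI0 : 1 ≤ (X.image Prod.fst).card := by
    rw [Nat.one_le_iff_ne_zero, ← Nat.pos_iff_ne_zero, card_pos, image_nonempty, ← card_pos]
    omega
  by_cases m : a.1 ∈ X.image Prod.fst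
  · rw [insert_eq_of_mem m] at h2
    have c1 : (X.image Prod.fst).card = 1 := by omega
    by_cases m' : a'.1 ∈ X.image Prod.fst
    · obtain ⟨k, hk⟩ := card_eq_one.1 c1
      rw [hk, mem_singleton] at m m'
      exact m.trans m'.symm
    · rw [card_insert_of_notMem m'] at h2'
      omega
  · rw [card_insert_of_notMem m] at h2
    have c3 : (X.image Prod.fst).card = 3 := by omega
    have hu : insert a.1 (X.image Prod.fst) = univ := by
      rw [← card_eq_iff_eq_univ, card_insert_of_notMem m, c3]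
      rfl
    by_cases m' : a'.1 ∈ X.image Prod.fst
    · rw [insert_eq_of_mem m'] at h2'
      omega
    · have : a'.1 ∈ insert a.1 (X.image Prod.fst) := by rw [hu]; exact mem_univ _
      rcases mem_insert.1 this with h | h
      · exact h.symm
      · exact absurd h m'

theorem pUA : StUA := by
  intro N _ X Y hG a a' ha ha' h h'
  rcases hG with ⟨h1, h2⟩ | ⟨h1, h2⟩ | ⟨h1, h2, hp⟩
  · have c1 : (insert a X).card = 4 := by rw [card_insert_of_notMem ha, h1]
    have c2 : (insert a' X).card = 4 := by rw [card_insert_of_notMem ha', h1]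
    have blk : ∀ Z : Finset (VA N), Z.card = 4 → KP Z Y → Blk Z := by
      intro Z hZ hK
      rcases hK with ⟨h, _⟩ | ⟨h, _⟩ | ⟨p, p', c, q, q', h1, h2, h3, h4, h5, h6, h7, _⟩
      · exact h
      · omega
      · rw [h5, card_eq_three.2 ⟨p, p', c, h1, h2, h3, rfl⟩] at hZ
        omega
    exact blk_case h1 ha ha' (blk _ c1 h) (blk _ c2 h')
  · exfalso
    have c1 : (insert a X).card = 2 := by rw [card_insert_of_notMem ha, h1]
    rcases h with ⟨h, _⟩ | ⟨h, _⟩ | ⟨p, p', c, q, q', h1, h2', h3, h4, h5, h6, h7, _⟩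
    · have := h.1
      omega
    · omega
    · rw [h5, card_eq_three.2 ⟨p, p', c, h1, h2', h3, rfl⟩] at c1
      omega
  · obtain ⟨x, x', hxx, rfl⟩ := card_eq_two.1 h1
    obtain ⟨b, b', hb, rfl⟩ := card_eq_two.1 h2
    rcases key hxx hb hp h ha with s | s <;> rcases key hxx hb hp h' ha' with s' | s'
    · exact Sp_inj s s'
    · exact (Sp_excl hxx hb hp s s').elim
    · exact (Sp_excl hxx hb hp s' s).elim
    · exact Sp_inj s s'

end Pool.Agent.Helper34.LF.MUA
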